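import Pool.Agent.H372R3.MW3

/-!
# Multiplicatively well approximable pairs that are not multiplicatively singular

For a pair `(α, β)` of reals the system `S(ε, T)` is
`|p + qα| |r + qβ| < ε / T`, `1 ≤ q ≤ T`, with `p, r, q` integers.

We show that the set of pairs which are multiplicatively well approximable (MWA) but not
multiplicatively singular (MS) is residual (comeagre) in the plane, in particular non-empty.
-/

open Topology Filter Set

namespace Pool.Agent.Results.MP_e45b92_nt.WellNotSingular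

/-- The system `S(ε, T)` has a solution for the pair `(α, β)`. -/
def Solvable (α β ε T : ℝ) : Prop :=
  ∃ p r q : ℤ, 1 ≤ q ∧ (q : ℝ) ≤ T ∧ |(p : ℝ) + q * α| * |(r : ℝ) + q * β| < ε / T

/-- `(α, β)` is multiplicatively well approximable: for every `ε > 0` the set of `T > 0` for
which `S(ε, T)` has a solution is unbounded. -/
def MWA (α β : ℝ) : Prop :=
  ∀ ε : ℝ, 0 < ε → ∀ B : ℝ, ∃ T : ℝ, B < T ∧ 0 < T ∧ Solvable α β ε T

/-- `(α, β)` is multiplicatively singular: for every `ε > 0` there is `T₀ > 0` such that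
`S(ε, T)` has a solution for every `T > T₀`. -/
def MS (α β : ℝ) : Prop :=
  ∀ ε : ℝ, 0 < ε → ∃ T₀ : ℝ, 0 < T₀ ∧ ∀ T : ℝ, T₀ < T → Solvable α β ε T

open H372R3.MW in
/-- The quantitative form: `ψ` is an arbitrary positive function. -/
theorem quant (ψ : ℝ → ℝ) (hψ : ∀ t, 0 < ψ t) :
    {x : ℝ × ℝ | (∀ B : ℝ, ∃ T : ℝ, B < T ∧ ∃ p r q : ℤ, 1 ≤ q ∧ (q : ℝ) ≤ T ∧
        |(p : ℝ) + q * x.1| * |(r : ℝ) + q * x.2| < ψ T) ∧
      (∀ B : ℝ, ∃ T : ℝ, B < T ∧ 0 < T ∧ ¬ Solvable x.1 x.2 (1 / 20) T)} ∈ residual (ℝ × ℝ) := by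
  have h0 : ∀ n : ℕ, U (fun t => min 1 (ψ t)) n ∈ residual (ℝ × ℝ) := fun n =>
    residual_of_dense_open (U_open _ n)
      (U_dense _ (fun t => lt_min one_pos (hψ t)) n)
  refine Filter.mem_of_superset (countable_iInter_mem.mpr h0) ?_
  intro x hx
  simp only [mem_iInter] at hx
  have hx' : ∀ B : ℝ, ∃ N a b : ℤ, 2 ≤ N ∧ B + 1 < N ∧ Good N a b ∧
      ∃ η : ℝ, 0 < η ∧ η ≤ 1 / (4 * (N:ℝ) ^ 2) ∧ η ≤ min 1 (ψ N) / N ^ 2 ∧
      |x.1 - a / N| < η ∧ |x.2 - b / N| < η := by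
    intro B
    obtain ⟨n, hn⟩ := exists_nat_gt (B + 1)
    have h := hx n
    simp only [U, mem_iUnion, mem_ofPred_eq] at h
    obtain ⟨⟨N, a, b⟩, ⟨h1, h2, h3⟩, h4, h5⟩ := h
    simp only at h1 h2 h3 h4 h5
    have h2' : (n : ℝ) ≤ N := by exact_mod_cast h2
    have hN : (2:ℝ) ≤ N := by exact_mod_cast h1
    refine ⟨N, a, b, h1, by linarith, h3, rad (fun t => min 1 (ψ t)) n N,
      rad_pos _ (fun t => lt_min one_pos (hψ t)) n N h1, ?_, min_le_right _ _, h4, h5⟩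
    refine (min_le_left _ _).trans ?_
    have hn0 : (0:ℝ) ≤ n := by positivity
    apply one_div_le_one_div_of_le (by positivity)
    have : (0:ℝ) < (N:ℝ) ^ 2 := by positivity
    nlinarith
  constructor
  · intro B
    obtain ⟨N, a, b, h1, h2, h3, η, hη, h4, h5, h6, h7⟩ := hx' B
    have hN : (2:ℝ) ≤ N := by exact_mod_cast h1
    refine ⟨N, by linarith, -a, -b, N, by omega, le_rfl, ?_⟩
    refine lt_of_lt_of_le (sol N a b h1 x.1 x.2 η h6 h7) ?_
    have hN2 : (1:ℝ) ≤ (N:ℝ) ^ 2 := by nlinarith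
    have hN3 : (0:ℝ) < (N:ℝ) ^ 2 := by linarith
    have hη1 : η ≤ 1 := by
      refine h5.trans ?_
      rw [div_le_iff₀ hN3]
      linarith [min_le_left 1 (ψ N)]
    have hη2 : N ^ 2 * η ≤ ψ N := by
      rw [le_div_iff₀ hN3] at h5
      linarith [min_le_right 1 (ψ N)]
    nlinarith [mul_le_mul_of_nonneg_left hη1 (by positivity : (0:ℝ) ≤ (N:ℝ) ^ 2 * η)]
  · intro B
    obtain ⟨N, a, b, h1, h2, h3, η, hη, h4, h5, h6, h7⟩ := hx' B
    have hN : (2:ℝ) ≤ N := by exact_mod_cast h1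
    refine ⟨(N:ℝ) - 1, by linarith, by linarith, ?_⟩
    rintro ⟨p, r, q, hq1, hq2, hlt⟩
    have hq3 : q < N := by
      have : (q:ℝ) < N := by linarith
      exact_mod_cast this
    have := no_sol N a b h1 h3 x.1 x.2 η h4 h6 h7 p r q hq1 hq3
    linarith

theorem main_residual : {x : ℝ × ℝ | MWA x.1 x.2 ∧ ¬ MS x.1 x.2} ∈ residual (ℝ × ℝ) := by
  refine Filter.mem_of_superset (quant (fun t => 1 / (1 + t ^ 2)) (fun t => by positivity)) ?_
  rintro x ⟨h1, h2⟩
  constructor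
  · intro ε hε B
    obtain ⟨T, hT, p, r, q, hq1, hq2, hlt⟩ := h1 (max (max B 1) (1 / ε))
    have hT1 : B < T := lt_of_le_of_lt ((le_max_left _ _).trans (le_max_left _ _)) hT
    have hT2 : 1 < T := lt_of_le_of_lt ((le_max_right _ _).trans (le_max_left _ _)) hT
    have hT3 : 1 / ε < T := lt_of_le_of_lt (le_max_right _ _) hT
    refine ⟨T, hT1, by linarith, p, r, q, hq1, hq2, hlt.trans ?_⟩
    rw [div_lt_iff₀ hε] at hT3
    rw [div_lt_div_iff₀ (by positivity) (by linarith)]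
    nlinarith
  · intro hMS
    obtain ⟨T₀, _, hT⟩ := hMS (1 / 20) (by norm_num)
    obtain ⟨T, hT1, _, hT2⟩ := h2 T₀
    exact hT2 (hT T hT1)

/-- **Answer to the question of Bandi, Fregoli and Kleinbock.** There is a pair that is
multiplicatively well approximable but not multiplicatively singular. Such pairs even form a
residual subset of the plane; more precisely, for every positive function `ψ` the pairs that
are MWA, are not MS, and for which `|p + qα| |r + qβ| < ψ(T)`, `1 ≤ q ≤ T` is solvable for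
arbitrarily large `T`, form a residual set. -/
theorem result :
    (∃ α β : ℝ, MWA α β ∧ ¬ MS α β) ∧
    ∀ ψ : ℝ → ℝ, (∀ t, 0 < ψ t) →
      {x : ℝ × ℝ | MWA x.1 x.2 ∧ ¬ MS x.1 x.2 ∧
        ∀ B : ℝ, ∃ T : ℝ, B < T ∧ ∃ p r q : ℤ, 1 ≤ q ∧ (q : ℝ) ≤ T ∧
          |(p : ℝ) + q * x.1| * |(r : ℝ) + q * x.2| < ψ T} ∈ residual (ℝ × ℝ) := by
  refine ⟨?_, fun ψ hψ => ?_⟩
  · obtain ⟨x, hx⟩ := (dense_of_mem_residual main_residual).nonempty
    exact ⟨x.1, x.2, hx⟩
  · filter_upwards [main_residual, quant ψ hψ] with x hx hx'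
    exact ⟨hx.1, hx.2, hx'.1⟩

end Pool.Agent.Results.MP_e45b92_nt.WellNotSingular
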